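import Mathlib
import Pool.Agent.Q290.RG.Rig2

set_option autoImplicit false

namespace Pool.Agent.Results.MP_65c98c_al.SmallDimension

open Pool.Agent.H29R2.MG Pool.Agent.Q290.MG Pool.Agent.Q290.RG Module

universe u v w

/-- Let `g ≥ 10` and let `Γ = Gam g` be the subgroup of the mapping class group `Mod_g` generated
by the Dehn twists about `a_k`, `b_k` and the band sums of `a_k` and `a_{k+1}` (by the theorem of
Lickorish it is all of `Mod_g`).

1. Every complex representation `ρ` of `Γ` of dimension less than `2g(g-1)`, irreducible or not,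
is infinitesimally rigid: `H^1(Γ, ad ρ) = 0`.

2. If `ρ`, `σ` are representations of `Γ` of dimensions less than `2g(g-1)` on vector spaces
`V`, `W` over a field `K` in which `2g - 2` is not zero, then `H^1(Γ, Hom_K(V, W)) = 0`. -/
theorem result (g : ℕ) (hg : 10 ≤ g) :
    (∀ (V : Type u) [AddCommGroup V] [Module ℂ V] [FiniteDimensional ℂ V]
      (ρ : Gam g →* Module.End ℂ V), finrank ℂ V < 2 * g * (g - 1) → InfRigid ρ) ∧
    ∀ (K : Type v) [Field K], 2 * (g : K) - 2 ≠ 0 →
      ∀ (V : Type u) [AddCommGroup V] [Module K V] [FiniteDimensional K V]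
        (W : Type w) [AddCommGroup W] [Module K W] [FiniteDimensional K W],
        finrank K V < 2 * g * (g - 1) → finrank K W < 2 * g * (g - 1) →
        ∀ (ρ : Gam g →* Module.End K V) (σ : Gam g →* Module.End K W), HOneZero ρ σ := by
  refine ⟨?_, ?_⟩
  · intro V _ _ _ ρ hV
    exact small_small hg (char_zero hg) hV hV ρ ρ
  · intro K _ h2 V _ _ _ W _ _ _ hV hW ρ σ
    exact small_small hg h2 hV hW ρ σ

end Pool.Agent.Results.MP_65c98c_al.SmallDimension
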